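import Pool.Agent.Y705.OG.Tools

/-! JOB B7: the main estimate. -/

set_option autoImplicit false

namespace Pool.Agent.Y705.OG

open Filter Metric Set Topology Pool.Agent.W603.BP Pool.Agent.Y192.OG

section

variable {N : ℕ} {c : Curve N} {F : c.Mr} (r : Rad c F) (Φ Ψ : Finset (Fin N → ℤ)) (w B k M : ℕ)
    (m : Fin k → Fin N → ℤ) (e : Fin k → c.Mr) (f : Fin M → c.Mr)

/-- the bound for a value of `lam` -/
theorem lam_le (hm : ∀ i, ∃ b : (Fin N → ℤ) → ℤ, (∀ ψ ∈ Ψ, |b ψ| ≤ B) ∧ m i = ∑ ψ ∈ Ψ, b ψ • ψ)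
    (z : ℂ) (i : Fin k) : |c.lam z (m i)| ≤ B * ∑ ψ ∈ Ψ, |c.lam z ψ| := by
  obtain ⟨b, hb, hmb⟩ := hm i
  rw [hmb, lam_sum, Finset.mul_sum]
  refine (Finset.abs_sum_le_sum_abs _ _).trans (Finset.sum_le_sum fun ψ hψ => ?_)
  rw [lam_smul, abs_mul]
  have h1 : |(b ψ : ℝ)| ≤ B := by exact_mod_cast hb ψ hψ
  gcongr

theorem del_le (hm : ∀ i, ∃ b : (Fin N → ℤ) → ℤ, (∀ ψ ∈ Ψ, |b ψ| ≤ B) ∧ m i = ∑ ψ ∈ Ψ, b ψ • ψ)
    (z : ℂ) (i : Fin k) : |c.del z (m i)| ≤ B * ∑ ψ ∈ Ψ, |c.del z ψ| := by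
  obtain ⟨b, hb, hmb⟩ := hm i
  rw [hmb, del_sum, Finset.mul_sum]
  refine (Finset.abs_sum_le_sum_abs _ _).trans (Finset.sum_le_sum fun ψ hψ => ?_)
  rw [del_smul, abs_mul]
  have h1 := hb ψ hψ
  gcongr

theorem circ_bound (hwr : St_wr)
    (he : ∀ i, Ctl r (e i) (fun z => c.lam z (m i)) (fun z => c.del z (m i)) Φ w)
    (hm : ∀ i, ∃ b : (Fin N → ℤ) → ℤ, (∀ ψ ∈ Ψ, |b ψ| ≤ B) ∧ m i = ∑ ψ ∈ Ψ, b ψ • ψ)
    (hf : ∀ j, f j ∈ Submodule.span ℂ (Set.range e)) :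
    ∃ C : ℝ, 0 < C ∧ ∀ n z, ‖z‖ = r.s n → ‖c.val (c.wrd f) z‖ ≤
      C * Real.exp (c.lam z (∑ i, m i) + ((k : ℝ) - M) * (B * ∑ ψ ∈ Ψ, |c.lam z ψ|) +
        M * w * ∑ φ ∈ Φ, |c.lam z φ|) * (1 / r.e n) ^ (M * w + M ^ 2) := by
  classical
  have ha : ∀ j, ∃ a : Fin k → ℂ, f j = ∑ i, a i • e i := fun j => by
    obtain ⟨a, ha⟩ := (Submodule.mem_span_range_iff_exists_fun ℂ).1 (hf j)
    exact ⟨a, ha.symm⟩
  choose a ha using ha
  have hexp := wrd_expand c f e a ha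
  have key : ∀ J : Fin M → Fin k, ∃ C : ℝ, 0 ≤ C ∧ ∀ n z, ‖z‖ = r.s n →
      ‖c.val ((∏ j, a j (J j)) • c.wrd (fun j => e (J j))) z‖ ≤
      C * Real.exp (c.lam z (∑ i, m i) + ((k : ℝ) - M) * (B * ∑ ψ ∈ Ψ, |c.lam z ψ|) +
        M * w * ∑ φ ∈ Φ, |c.lam z φ|) * (1 / r.e n) ^ (M * w + M ^ 2) := by
    intro J
    by_cases hJ : Function.Injective J
    · obtain ⟨C, hC, h1⟩ := (hwr N c F r M (fun j => e (J j))).2.2.2 Φ w
        (fun j z => c.lam z (m (J j))) (fun j z => c.del z (m (J j))) (fun j => he (J j))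
      refine ⟨‖∏ j, a j (J j)‖ * C, by positivity, fun n z hz => ?_⟩
      have h2 := h1 n z hz
      have he0 : 0 < 1 / r.e n := by have := (r.he n).1; positivity
      have h3 : ∑ j, c.lam z (m (J j)) ≤ c.lam z (∑ i, m i) +
          ((k : ℝ) - M) * (B * ∑ ψ ∈ Ψ, |c.lam z ψ|) := by
        rw [lam_sum]
        exact (inj_sum (fun i => c.lam z (m i)) _ (lam_le Ψ B k m hm z) J hJ).1
      rw [c.val_smul, norm_mul]
      calc ‖∏ j, a j (J j)‖ * ‖c.val (c.wrd fun j => e (J j)) z‖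
          ≤ ‖∏ j, a j (J j)‖ * (C * Real.exp (∑ j, c.lam z (m (J j)) + M * w *
            ∑ φ ∈ Φ, |c.lam z φ|) * (1 / r.e n) ^ (M * w + M ^ 2)) := by gcongr
        _ ≤ ‖∏ j, a j (J j)‖ * (C * Real.exp ((c.lam z (∑ i, m i) +
          ((k : ℝ) - M) * (B * ∑ ψ ∈ Ψ, |c.lam z ψ|)) + M * w *
            ∑ φ ∈ Φ, |c.lam z φ|) * (1 / r.e n) ^ (M * w + M ^ 2)) := by gcongr
        _ = _ := by ring
    · refine ⟨0, le_rfl, fun n z _ => ?_⟩
      rw [wrd_noninj c e J hJ, smul_zero, val_zero, norm_zero, zero_mul, zero_mul]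
  choose C hC0 hC using key
  refine ⟨1 + ∑ J, C J, by have := Finset.sum_nonneg fun J (_ : J ∈ Finset.univ) => hC0 J; linarith,
    fun n z hz => ?_⟩
  have he0 : 0 < 1 / r.e n := by have := (r.he n).1; positivity
  rw [hexp, val_sum]
  refine (norm_sum_le _ _).trans ((Finset.sum_le_sum fun J _ => hC J n z hz).trans ?_)
  rw [← Finset.sum_mul, ← Finset.sum_mul]
  gcongr
  linarith

/-- the bound for the orders -/
theorem ord_bound (hord : St_ord) (hwr : St_wr)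
    (he : ∀ i, Ctl r (e i) (fun z => c.lam z (m i)) (fun z => c.del z (m i)) Φ w)
    (hm : ∀ i, ∃ b : (Fin N → ℤ) → ℤ, (∀ ψ ∈ Ψ, |b ψ| ≤ B) ∧ m i = ∑ ψ ∈ Ψ, b ψ • ψ)
    (hf : ∀ j, f j ∈ Submodule.span ℂ (Set.range e)) (hMk : M ≤ k) (ρ : ℂ → ℤ)
    (hρ0 : ∀ z, 0 ≤ ρ z) (hρU : ∀ z, z ∉ c.U → ρ z = 0)
    (hρ : ∀ z ∈ c.U, ∀ j, (ρ z : WithTop ℤ) ≤ c.ord z (f j)) (z : ℂ) (hz : z ∈ Ext c.r0) :
    ((c.del z (∑ i, m i) - ((k : ℤ) - M) * (B * ∑ ψ ∈ Ψ, |c.del z ψ|)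
      - (M * w) * (∑ φ ∈ Φ, |c.del z φ| + c.bad z) - M ^ 2 * c.bad z + M * ρ z : ℤ) : WithTop ℤ) ≤
      c.ord z (c.wrd f) := by
  classical
  have ha : ∀ j, ∃ a : Fin k → ℂ, f j = ∑ i, a i • e i := fun j => by
    obtain ⟨a, ha⟩ := (Submodule.mem_span_range_iff_exists_fun ℂ).1 (hf j)
    exact ⟨a, ha.symm⟩
  choose a ha using ha
  have hexp := wrd_expand c f e a ha
  have hkM : (0 : ℤ) ≤ (k : ℤ) - M := by
    have : (M : ℤ) ≤ k := by exact_mod_cast hMk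
    linarith
  by_cases hU : z ∈ c.U
  · have h1 : c.bad z = 0 := (hord N c).2.2.1 z hU
    have h2 : ∀ m, c.del z m = 0 := (hord N c).2.1 z hU
    have h3 := (hwr N c F r M f).2.2.1 z hU (ρ z).toNat (fun j => by
      have h4 := hρ z hU j
      have h5 : (((ρ z).toNat : ℤ)) = ρ z := Int.toNat_of_nonneg (hρ0 z)
      have h6 : (((ρ z).toNat : ℕ) : WithTop ℤ) = ((ρ z : ℤ) : WithTop ℤ) := by
        rw [← h5]; rfl
      rw [h6]
      exact h4)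
    refine le_trans (le_of_eq ?_) h3
    have h5 : (((ρ z).toNat : ℤ)) = ρ z := Int.toNat_of_nonneg (hρ0 z)
    have h7 : ((M * (ρ z).toNat : ℕ) : WithTop ℤ) = (((M * (ρ z).toNat : ℕ) : ℤ) : WithTop ℤ) := rfl
    rw [h7]
    congr 1
    push_cast
    rw [h5, h1]
    simp [h2]
  · rw [hexp]
    refine ord_sum_ge c hord hz _ _ _ fun J _ => ?_
    refine le_trans ?_ (((hord N c).1 z hz).2.2.1 _ _)
    by_cases hJ : Function.Injective J
    · have h1 := (hwr N c F r M (fun j => e (J j))).2.1 z hz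
        (fun j => c.del z (m (J j)) - w * (∑ φ ∈ Φ, |c.del z φ| + c.bad z))
        (fun j => (he (J j)).2 z hz)
      refine le_trans ?_ h1
      rw [WithTop.coe_le_coe]
      have h2 : ∑ i, c.del z (m i) - ((k : ℤ) - M) * (B * ∑ ψ ∈ Ψ, |c.del z ψ|) ≤
          ∑ j, c.del z (m (J j)) :=
        (inj_sum (fun i => c.del z (m i)) _ (del_le Ψ B k m hm z) J hJ).2
      have h3 : c.bad z = 1 := by
        unfold Curve.bad
        rw [if_pos]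
        by_contra h4
        push Not at h4
        exact hU ⟨hz, h4⟩
      rw [hρU z hU, del_sum, Finset.sum_sub_distrib, Finset.sum_const, Finset.card_univ,
        Fintype.card_fin, nsmul_eq_mul, h3]
      have h5 : (M : ℤ) * (w * (∑ φ ∈ Φ, |c.del z φ| + 1)) = (M * w) * (∑ φ ∈ Φ, |c.del z φ| + 1) := by
        ring
      rw [h5]
      linarith
    · rw [wrd_noninj c e J hJ, ord_zero]
      exact le_top

end

/-- JOB B7 -/
theorem t_gwl : St_ring → St_ord → St_cnt → St_jen → St_ht → St_wr → St_gwl := by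
  intro hring hord hcnt hjen hht hwr N c F r Φ Ψ w B k M m e f ρ he hm hli hf hρ0 hρU hρL hρ
  classical
  have hMk : M ≤ k := by
    have h1 := linearIndependent_le_span' f hli (Set.range e) (by
      rintro _ ⟨j, rfl⟩
      exact hf j)
    rw [Cardinal.mk_fin] at h1
    have h2 : Fintype.card (Set.range e) ≤ k := by
      have := Fintype.card_range_le e
      rwa [Fintype.card_fin] at this
    have h3 : M ≤ Fintype.card (Set.range e) := by exact_mod_cast h1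
    exact h3.trans h2
  refine ⟨hMk, ?_⟩
  have hkM : (0 : ℝ) ≤ (k : ℝ) - M := by
    have : (M : ℝ) ≤ k := by exact_mod_cast hMk
    linarith
  have hW : c.wrd f ≠ 0 := (hwr N c F r M f).1 hli
  obtain ⟨C0, hC0, hcirc⟩ := circ_bound r Φ Ψ w B k M m e f hwr he hm hf
  have hO := ord_bound r Φ Ψ w B k M m e f hord hwr he hm hf hMk ρ hρ0 hρU hρ
  obtain ⟨C1, hC1⟩ := hjen N c (c.wrd f) hW
  haveI : Nontrivial c.Mr := (hring N c).2.1
  have hm0 : c.mon (∑ i, m i) ≠ 0 := (c.monu (∑ i, m i)).ne_zero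
  obtain ⟨C2, hC2⟩ := hjen N c (c.mon (∑ i, m i)) hm0
  -- the counting functions
  have hlW := (hord N c).2.2.2.2.2.1 (c.wrd f) hW
  have hlm := (hord N c).2.2.2.2.2.1 (c.mon (∑ i, m i)) hm0
  have hlb := (hord N c).2.2.2.2.2.2.1
  have hld := (hord N c).2.2.2.2.2.2.2
  have hla : ∀ m, c.LocFin (fun z => ((|c.del z m| : ℤ) : ℝ)) := locfin_abs_del c hcnt hord
  obtain ⟨hadd, hmul, hmono, _⟩ := hcnt N c
  have hΨ := cnt_sum c hcnt Ψ (fun ψ z => ((|c.del z ψ| : ℤ) : ℝ)) fun ψ _ => hla ψ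
  have hΦ := cnt_sum c hcnt Φ (fun ψ z => ((|c.del z ψ| : ℤ) : ℝ)) fun ψ _ => hla ψ
  have hE : ∀ z : ℂ, c.r0 + 1 ≤ ‖z‖ → (M : ℝ) * ((ρ z : ℤ) : ℝ) + ((c.del z (∑ i, m i) : ℤ) : ℝ) ≤
      (((c.ord z (c.wrd f)).untop₀ : ℤ) : ℝ) +
      ((((k : ℝ) - M) * B) * (∑ ψ ∈ Ψ, ((|c.del z ψ| : ℤ) : ℝ)) +
        ((M * w : ℝ) * (∑ φ ∈ Φ, ((|c.del z φ| : ℤ) : ℝ)) +
          (M * w + M ^ 2 : ℝ) * ((c.bad z : ℤ) : ℝ))) := by
    intro z hz
    have hzE : z ∈ Ext c.r0 := by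
      show c.r0 < ‖z‖
      linarith
    have h1 := hO z hzE
    have h2 := (hring N c).2.2.2 (c.wrd f) hW z hzE
    rw [← WithTop.coe_untop₀_of_ne_top h2, WithTop.coe_le_coe] at h1
    have h3 : ((c.del z (∑ i, m i) - ((k : ℤ) - M) * (B * ∑ ψ ∈ Ψ, |c.del z ψ|)
      - (M * w) * (∑ φ ∈ Φ, |c.del z φ| + c.bad z) - M ^ 2 * c.bad z + M * ρ z : ℤ) : ℝ) ≤
      (((c.ord z (c.wrd f)).untop₀ : ℤ) : ℝ) := by exact_mod_cast h1
    push_cast at h3 ⊢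
    linarith
  have hcntle : ∀ R, (M : ℝ) * c.cnt (fun z => (ρ z : ℤ)) R +
      c.cnt (fun z => ((c.del z (∑ i, m i) : ℤ) : ℝ)) R ≤
      c.cnt (fun z => (((c.ord z (c.wrd f)).untop₀ : ℤ) : ℝ)) R +
      ((((k : ℝ) - M) * B) * (∑ ψ ∈ Ψ, c.cnt (fun z => ((|c.del z ψ| : ℤ) : ℝ)) R) +
        ((M * w : ℝ) * (∑ φ ∈ Φ, c.cnt (fun z => ((|c.del z φ| : ℤ) : ℝ)) R) +
          (M * w + M ^ 2 : ℝ) * c.cnt (fun z => ((c.bad z : ℤ) : ℝ)) R)) := by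
    intro R
    have a1 := hmul (M : ℝ) _ hρL
    have a2 := hadd _ _ a1.1 (hld (∑ i, m i))
    have b1 := hmul (((k : ℝ) - M) * B) _ hΨ.1
    have b2 := hmul (M * w : ℝ) _ hΦ.1
    have b3 := hmul (M * w + M ^ 2 : ℝ) _ hlb
    have b4 := hadd _ _ b2.1 b3.1
    have b5 := hadd _ _ b1.1 b4.1
    have b6 := hadd _ _ hlW b5.1
    have h1 := hmono _ _ a2.1 b6.1 hE R
    rw [a2.2, a1.2, b6.2, b5.2, b1.2, b4.2, b2.2, b3.2, hΨ.2, hΦ.2] at h1
    exact h1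
  have hcntm : ∀ R, c.cnt (fun z => (((c.ord z (c.mon (∑ i, m i))).untop₀ : ℤ) : ℝ)) R =
      c.cnt (fun z => ((c.del z (∑ i, m i) : ℤ) : ℝ)) R := by
    intro R
    have h1 : ∀ z : ℂ, c.r0 + 1 ≤ ‖z‖ → (((c.ord z (c.mon (∑ i, m i))).untop₀ : ℤ) : ℝ) =
        ((c.del z (∑ i, m i) : ℤ) : ℝ) := by
      intro z hz
      have hzE : z ∈ Ext c.r0 := by
        show c.r0 < ‖z‖
        linarith
      rw [((hord N c).1 z hzE).2.2.2.2.2]
      rfl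
    exact le_antisymm (hmono _ _ hlm (hld _) (fun z hz => (h1 z hz).le) R)
      (hmono _ _ (hld _) hlm (fun z hz => (h1 z hz).ge) R)
  intro δ hδ
  filter_upwards [absorb c r (Real.log C0 + C1 + C2) (C1 + C2) (M * w + M ^ 2 : ℝ) δ hδ] with n hn
  have hR : c.r0 + 2 ≤ r.s n := r.hs n
  have hRpos : 0 < r.s n := by linarith [c.r0_pos]
  obtain ⟨_, _, _, _, _, hcl, hcf⟩ := (hht N c).1 (r.s n) hR
  have hcabs : ∀ m, CircleIntegrable (fun z => |c.lam z m|) 0 (r.s n) := fun m =>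
    Pool.Agent.H159R3.NV.ci_abs (hcl m)
  have ciS : ∀ Θ : Finset (Fin N → ℤ), CircleIntegrable (fun z => ∑ ψ ∈ Θ, |c.lam z ψ|) 0 (r.s n) :=
    fun Θ => CircleIntegrable.fun_sum Θ fun ψ _ => hcabs ψ
  have avS : ∀ Θ : Finset (Fin N → ℤ), Real.circleAverage (fun z => ∑ ψ ∈ Θ, |c.lam z ψ|) 0 (r.s n) =
      ∑ ψ ∈ Θ, Real.circleAverage (fun z => |c.lam z ψ|) 0 (r.s n) := fun Θ =>
    Real.circleAverage_fun_sum fun ψ _ => hcabs ψ
  set a : ℝ := Real.log C0 + (M * w + M ^ 2 : ℝ) * Real.log (1 / r.e n) with ha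
  have c1 : CircleIntegrable (fun z => a + c.lam z (∑ i, m i)) 0 (r.s n) :=
    (circleIntegrable_const a 0 (r.s n)).add (hcl _)
  have c2 : CircleIntegrable (fun z => (((k : ℝ) - M) * B) • ∑ ψ ∈ Ψ, |c.lam z ψ|) 0 (r.s n) :=
    (ciS Ψ).const_fun_smul
  have c3 : CircleIntegrable (fun z => (M * w : ℝ) • ∑ ψ ∈ Φ, |c.lam z ψ|) 0 (r.s n) :=
    (ciS Φ).const_fun_smul
  have c12 : CircleIntegrable (fun z => (a + c.lam z (∑ i, m i)) +
      (((k : ℝ) - M) * B) • ∑ ψ ∈ Ψ, |c.lam z ψ|) 0 (r.s n) := c1.add c2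
  have hav : Real.circleAverage (fun z => Real.log ‖c.val (c.wrd f) z‖) 0 (r.s n) ≤
      Real.circleAverage (fun z => (a + c.lam z (∑ i, m i)) +
        ((((k : ℝ) - M) * B) • ∑ ψ ∈ Ψ, |c.lam z ψ|) + ((M * w : ℝ) • ∑ ψ ∈ Φ, |c.lam z ψ|))
        0 (r.s n) := by
    apply Pool.Agent.H159R3.NV.avg_le_cod (hcf _) ((c1.add c2).add c3) hRpos.ne'
    have h1 := cod_ne c hring hW (R := r.s n) (by linarith)
    have h2 : ∀ᶠ z in codiscreteWithin (sphere (0 : ℂ) |r.s n|), z ∈ sphere (0 : ℂ) |r.s n| :=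
      Filter.self_mem_codiscreteWithin _
    filter_upwards [h1, h2] with z hz1 hz2
    have hz3 : ‖z‖ = r.s n := by
      rw [mem_sphere_zero_iff_norm, abs_of_pos hRpos] at hz2
      exact hz2
    have h3 := hcirc n z hz3
    have he0 : 0 < 1 / r.e n := by have := (r.he n).1; positivity
    have h4 := Real.log_le_log (norm_pos_iff.2 hz1) h3
    refine h4.trans (le_of_eq ?_)
    rw [Real.log_mul (by positivity) (by positivity), Real.log_mul hC0.ne' (Real.exp_pos _).ne',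
      Real.log_exp, Real.log_pow, ha]
    simp only [Pi.add_apply, smul_eq_mul]
    push_cast
    generalize Real.log (1 / r.e n) = L1
    generalize ∑ ψ ∈ Ψ, |c.lam z ψ| = S1
    generalize ∑ ψ ∈ Φ, |c.lam z ψ| = S2
    ring
  have hav2 : Real.circleAverage (fun z => (a + c.lam z (∑ i, m i)) +
        ((((k : ℝ) - M) * B) • ∑ ψ ∈ Ψ, |c.lam z ψ|) + ((M * w : ℝ) • ∑ ψ ∈ Φ, |c.lam z ψ|))
        0 (r.s n) = a + Real.circleAverage (fun z => c.lam z (∑ i, m i)) 0 (r.s n) +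
          (((k : ℝ) - M) * B) * ∑ ψ ∈ Ψ, Real.circleAverage (fun z => |c.lam z ψ|) 0 (r.s n) +
          (M * w : ℝ) * ∑ ψ ∈ Φ, Real.circleAverage (fun z => |c.lam z ψ|) 0 (r.s n) := by
    rw [Real.circleAverage_fun_add c12 c3, Real.circleAverage_fun_add c1 c2,
      Real.circleAverage_fun_add (circleIntegrable_const a 0 (r.s n)) (hcl _),
      Real.circleAverage_const, Real.circleAverage_fun_smul, Real.circleAverage_fun_smul,
      avS, avS, smul_eq_mul, smul_eq_mul]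
  have hmav : Real.circleAverage (fun z => Real.log ‖c.val (c.mon (∑ i, m i)) z‖) 0 (r.s n) =
      Real.circleAverage (fun z => c.lam z (∑ i, m i)) 0 (r.s n) := by
    apply Real.circleAverage_congr_sphere
    intro z hz
    have hz3 : ‖z‖ = r.s n := by
      rw [mem_sphere_zero_iff_norm, abs_of_pos hRpos] at hz
      exact hz
    simp only
    rw [(hord N c).2.2.2.1 z (mem_U c r n hz3), Real.log_exp]
  have hj1 := hC1 (r.s n) hR
  have hj2 := hC2 (r.s n) hR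
  rw [hmav, hcntm] at hj2
  have hj1' := abs_le.1 hj1
  have hj2' := abs_le.1 hj2
  have hcl2 := hcntle (r.s n)
  rw [hav2] at hav
  unfold Curve.ht
  rw [Finset.sum_add_distrib, Finset.sum_add_distrib]
  rw [ha] at hav
  nlinarith [hj1'.1, hj1'.2, hj2'.1, hj2'.2, hcl2, hav, hn]

end Pool.Agent.Y705.OG
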