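import Pool.Agent.Y192.OG.StB
import Pool.Agent.H159R3.NV.StepB

/-! Auxiliary lemmas for the Wronskian estimates. -/

set_option autoImplicit false

namespace Pool.Agent.Y705.OG

open Filter Metric Set Topology Pool.Agent.W603.BP Pool.Agent.Y192.OG

variable {N : ℕ} (c : Curve N)

/-- `lam z` as a homomorphism -/
noncomputable def lamH (z : ℂ) : (Fin N → ℤ) →+ ℝ where
  toFun m := c.lam z m
  map_zero' := by simp [Curve.lam]
  map_add' m m' := by
    unfold Curve.lam
    rw [← Finset.sum_add_distrib]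
    refine Finset.sum_congr rfl fun i _ => ?_
    rw [Pi.add_apply]; push_cast; ring

/-- `del z` as a homomorphism -/
noncomputable def delH (z : ℂ) : (Fin N → ℤ) →+ ℤ where
  toFun m := c.del z m
  map_zero' := by simp [Curve.del]
  map_add' m m' := by
    unfold Curve.del
    rw [← Finset.sum_add_distrib]
    refine Finset.sum_congr rfl fun i _ => ?_
    rw [Pi.add_apply]; ring

theorem lam_sum (z : ℂ) {ι : Type*} (s : Finset ι) (m : ι → Fin N → ℤ) :
    c.lam z (∑ i ∈ s, m i) = ∑ i ∈ s, c.lam z (m i) := map_sum (lamH c z) m s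

theorem del_sum (z : ℂ) {ι : Type*} (s : Finset ι) (m : ι → Fin N → ℤ) :
    c.del z (∑ i ∈ s, m i) = ∑ i ∈ s, c.del z (m i) := map_sum (delH c z) m s

theorem lam_smul (z : ℂ) (a : ℤ) (m : Fin N → ℤ) : c.lam z (a • m) = a * c.lam z m := by
  have h := map_zsmul (lamH c z) a m
  simpa [lamH] using h

theorem del_smul (z : ℂ) (a : ℤ) (m : Fin N → ℤ) : c.del z (a • m) = a * c.del z m := by
  have h := map_zsmul (delH c z) a m
  simpa [delH] using h

theorem lam_sub (z : ℂ) (m m' : Fin N → ℤ) : c.lam z (m - m') = c.lam z m - c.lam z m' :=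
  map_sub (lamH c z) m m'

theorem del_sub (z : ℂ) (m m' : Fin N → ℤ) : c.del z (m - m') = c.del z m - c.del z m' :=
  map_sub (delH c z) m m'

theorem val_zero (z : ℂ) : c.val 0 z = 0 := by
  have h := c.val_smul 0 0 z
  rw [zero_smul, zero_mul] at h
  exact h

theorem val_sum {ι : Type*} (s : Finset ι) (f : ι → c.Mr) (z : ℂ) :
    c.val (∑ i ∈ s, f i) z = ∑ i ∈ s, c.val (f i) z := by
  classical
  induction s using Finset.induction_on with
  | empty => simp [val_zero]
  | insert i s hi ih => rw [Finset.sum_insert hi, Finset.sum_insert hi, c.val_add, Pi.add_apply, ih]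

theorem ord_zero (z : ℂ) : c.ord z 0 = ⊤ := by
  unfold Curve.ord
  rw [meromorphicOrderAt_eq_top_iff]
  exact Filter.Eventually.of_forall fun w => val_zero c w

theorem ord_sum_ge (hord : St_ord) {z : ℂ} (hz : z ∈ Ext c.r0) {ι : Type*} (s : Finset ι)
    (f : ι → c.Mr) (K : WithTop ℤ) (h : ∀ i ∈ s, K ≤ c.ord z (f i)) :
    K ≤ c.ord z (∑ i ∈ s, f i) := by
  classical
  induction s using Finset.induction_on with
  | empty => rw [Finset.sum_empty, ord_zero]; exact le_top
  | insert i s hi ih =>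
    rw [Finset.sum_insert hi]
    refine le_trans (le_min ?_ ?_) (((hord N c).1 z hz).2.1 _ _)
    · exact h i (Finset.mem_insert_self _ _)
    · exact ih fun j hj => h j (Finset.mem_insert_of_mem hj)

theorem Dr_iter_add (l : ℕ) (f g : c.Mr) :
    ((c.Dr : c.Mr → c.Mr)^[l]) (f + g) = ((c.Dr : c.Mr → c.Mr)^[l]) f + ((c.Dr : c.Mr → c.Mr)^[l]) g := by
  induction l generalizing f g with
  | zero => rfl
  | succ l ih => rw [Function.iterate_succ_apply, Function.iterate_succ_apply,
      Function.iterate_succ_apply, map_add, ih]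

theorem Dr_iter_smul (l : ℕ) (a : ℂ) (f : c.Mr) :
    ((c.Dr : c.Mr → c.Mr)^[l]) (a • f) = a • ((c.Dr : c.Mr → c.Mr)^[l]) f := by
  induction l generalizing f with
  | zero => rfl
  | succ l ih => rw [Function.iterate_succ_apply, Function.iterate_succ_apply,
      Derivation.map_smul, ih]

theorem Dr_iter_zero (l : ℕ) : ((c.Dr : c.Mr → c.Mr)^[l]) 0 = 0 := by
  have h := Dr_iter_smul c l 0 0
  rw [zero_smul, zero_smul] at h
  exact h

theorem Dr_iter_sum (l : ℕ) {ι : Type*} (s : Finset ι) (f : ι → c.Mr) :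
    ((c.Dr : c.Mr → c.Mr)^[l]) (∑ i ∈ s, f i) = ∑ i ∈ s, ((c.Dr : c.Mr → c.Mr)^[l]) (f i) := by
  classical
  induction s using Finset.induction_on with
  | empty => simp [Dr_iter_zero]
  | insert i s hi ih => rw [Finset.sum_insert hi, Finset.sum_insert hi, Dr_iter_add, ih]

theorem wrd_eq {M : ℕ} (f : Fin M → c.Mr) : c.wrd f = Matrix.detRowAlternating
    (fun b l : Fin M => ((c.Dr : c.Mr → c.Mr)^[(l : ℕ)]) (f b)) := rfl

theorem wrd_expand {M k : ℕ} (f : Fin M → c.Mr) (e : Fin k → c.Mr) (a : Fin M → Fin k → ℂ)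
    (h : ∀ j, f j = ∑ i, a j i • e i) :
    c.wrd f = ∑ J : Fin M → Fin k, (∏ j, a j (J j)) • c.wrd (fun j => e (J j)) := by
  classical
  have h1 : (fun b l : Fin M => ((c.Dr : c.Mr → c.Mr)^[(l : ℕ)]) (f b)) =
      fun b => ∑ i, (algebraMap ℂ c.Mr (a b i)) •
        (fun l : Fin M => ((c.Dr : c.Mr → c.Mr)^[(l : ℕ)]) (e i)) := by
    funext b l
    rw [h, Dr_iter_sum, Finset.sum_apply]
    refine Finset.sum_congr rfl fun i _ => ?_
    rw [Dr_iter_smul, Pi.smul_apply, algebraMap_smul]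
  rw [wrd_eq, h1]
  have h2 := (Matrix.detRowAlternating (R := c.Mr) (n := Fin M)).toMultilinearMap.map_sum
    (α := fun _ : Fin M => Fin k)
    (fun b i => (algebraMap ℂ c.Mr (a b i)) •
        (fun l : Fin M => ((c.Dr : c.Mr → c.Mr)^[(l : ℕ)]) (e i)))
  simp only [AlternatingMap.coe_multilinearMap] at h2
  rw [h2]
  refine Finset.sum_congr rfl fun J _ => ?_
  have h3 := (Matrix.detRowAlternating (R := c.Mr) (n := Fin M)).toMultilinearMap.map_smul_univ
    (fun j => algebraMap ℂ c.Mr (a j (J j)))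
    (fun j => (fun l : Fin M => ((c.Dr : c.Mr → c.Mr)^[(l : ℕ)]) (e (J j))))
  simp only [AlternatingMap.coe_multilinearMap] at h3
  rw [h3, ← map_prod, algebraMap_smul]
  rfl

theorem wrd_noninj {M k : ℕ} (e : Fin k → c.Mr) (J : Fin M → Fin k) (h : ¬ Function.Injective J) :
    c.wrd (fun j => e (J j)) = 0 := by
  rw [Function.not_injective_iff] at h
  obtain ⟨i, j, hij, hne⟩ := h
  exact Matrix.det_zero_of_row_eq hne (by
    funext l
    simp only [Matrix.of_apply, hij])

/-- functions which vanish only on a discrete set -/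
theorem cod_ne (hring : St_ring) {W : c.Mr} (hW : W ≠ 0) {R : ℝ} (hR : c.r0 < R) :
    ∀ᶠ z in codiscreteWithin (sphere (0 : ℂ) |R|), c.val W z ≠ 0 := by
  have hR0 : 0 < R := lt_trans c.r0_pos hR
  rw [abs_of_pos hR0]
  rw [Filter.Eventually, mem_codiscreteWithin]
  intro x hx
  have hxE : x ∈ Ext c.r0 := by
    have h1 : ‖x‖ = R := by simpa using hx
    show c.r0 < ‖x‖
    rw [h1]; exact hR
  have h2 := (hring N c).2.2.2 W hW x hxE
  unfold Curve.ord at h2
  rw [meromorphicOrderAt_ne_top_iff_eventually_ne_zero (c.val_mero W x hxE)] at h2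
  rw [Filter.disjoint_principal_right]
  filter_upwards [h2] with y hy
  simp [hy]

theorem mem_U {F : c.Mr} (r : Rad c F) (n : ℕ) {z : ℂ} (hz : ‖z‖ = r.s n) : z ∈ c.U :=
  r.ne n z hz z (mem_closedBall_self (r.he n).1.le)

/-- absorption of the error terms -/
theorem absorb {F : c.Mr} (r : Rad c F) (K1 K2 K3 : ℝ) :
    ∀ δ : ℝ, 0 < δ → ∀ᶠ n in atTop, K1 + K2 * Real.log (r.s n) + K3 * Real.log (1 / r.e n) ≤
      δ * c.ch (r.s n) := by
  intro δ hδ
  set K : ℝ := 1 + |K1| + |K2| + |K3| with hK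
  have hK0 : 0 < K := by positivity
  have h1 := r.small (δ / K) (by positivity)
  have h2 : ∀ᶠ n in atTop, 1 ≤ Real.log (r.s n) :=
    (Real.tendsto_log_atTop.comp r.lim).eventually_ge_atTop 1
  filter_upwards [h1, h2] with n h3 h4
  have h5 : 0 ≤ Real.log (1 / r.e n) := by
    apply Real.log_nonneg
    rw [le_div_iff₀ (r.he n).1, one_mul]
    exact (r.he n).2
  set T := δ / K * c.ch (r.s n) with hT
  have hT0 : 0 ≤ T := le_trans (by linarith) h3.1
  have e1 : K1 ≤ |K1| * T := by
    calc K1 ≤ |K1| * 1 := by rw [mul_one]; exact le_abs_self _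
      _ ≤ |K1| * T := by gcongr; linarith [h3.1]
  have e2 : K2 * Real.log (r.s n) ≤ |K2| * T := by
    calc K2 * Real.log (r.s n) ≤ |K2| * Real.log (r.s n) := by
          gcongr; exact le_abs_self _
      _ ≤ |K2| * T := by gcongr; exact h3.1
  have e3 : K3 * Real.log (1 / r.e n) ≤ |K3| * T := by
    calc K3 * Real.log (1 / r.e n) ≤ |K3| * Real.log (1 / r.e n) := by
          gcongr; exact le_abs_self _
      _ ≤ |K3| * T := by gcongr; exact h3.2
  have e4 : K * T = δ * c.ch (r.s n) := by rw [hT]; field_simp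
  calc K1 + K2 * Real.log (r.s n) + K3 * Real.log (1 / r.e n)
      ≤ |K1| * T + |K2| * T + |K3| * T := by linarith
    _ ≤ K * T := by rw [hK]; nlinarith
    _ = _ := e4

/-- sums over an injective family -/
theorem inj_sum {R : Type*} [CommRing R] [LinearOrder R] [IsStrictOrderedRing R] {k M : ℕ}
    (g : Fin k → R) (T : R) (hT : ∀ i, |g i| ≤ T) (J : Fin M → Fin k) (hJ : Function.Injective J) :
    ∑ j, g (J j) ≤ ∑ i, g i + ((k : R) - M) * T ∧ ∑ i, g i - ((k : R) - M) * T ≤ ∑ j, g (J j) := by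
  classical
  have h1 : ∑ j, g (J j) = ∑ i ∈ Finset.univ.image J, g i := by
    rw [Finset.sum_image fun x _ y _ h => hJ h]
  have h2 : ∑ i ∈ Finset.univ.image J, g i + ∑ i ∈ (Finset.univ.image J)ᶜ, g i = ∑ i, g i :=
    Finset.sum_add_sum_compl _ _
  have h3 : (Finset.univ.image J).card = M := by
    rw [Finset.card_image_of_injective _ hJ, Finset.card_univ, Fintype.card_fin]
  have h4 : ((Finset.univ.image J)ᶜ.card : R) = (k : R) - M := by
    rw [Finset.card_compl, h3, Fintype.card_fin, Nat.cast_sub]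
    have h5 := Finset.card_le_univ (Finset.univ.image J)
    rwa [h3, Fintype.card_fin] at h5
  have h5 : |∑ i ∈ (Finset.univ.image J)ᶜ, g i| ≤ ((k : R) - M) * T := by
    refine (Finset.abs_sum_le_sum_abs _ _).trans ?_
    refine (Finset.sum_le_card_nsmul _ _ T fun i _ => hT i).trans ?_
    rw [nsmul_eq_mul, h4]
  have h6 := abs_le.1 h5
  constructor <;> linarith [h6.1, h6.2]

theorem locfin_zero : c.LocFin (fun _ => 0) := by
  intro R
  simp

theorem cnt_zero (hcnt : St_cnt) (R : ℝ) : c.cnt (fun _ => 0) R = 0 := by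
  have h := ((hcnt N c).2.1 0 (fun _ => 0) (locfin_zero c)).2 R
  simpa using h

theorem cnt_sum (hcnt : St_cnt) {ι : Type*} (s : Finset ι) (E : ι → ℂ → ℝ)
    (h : ∀ i ∈ s, c.LocFin (E i)) : c.LocFin (fun z => ∑ i ∈ s, E i z) ∧
      ∀ R, c.cnt (fun z => ∑ i ∈ s, E i z) R = ∑ i ∈ s, c.cnt (E i) R := by
  classical
  induction s using Finset.induction_on with
  | empty =>
    simp only [Finset.sum_empty]
    exact ⟨locfin_zero c, fun R => cnt_zero c hcnt R⟩
  | insert i s hi ih =>
    simp only [Finset.sum_insert hi]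
    have h1 := ih fun j hj => h j (Finset.mem_insert_of_mem hj)
    have h2 := (hcnt N c).1 (E i) (fun z => ∑ i ∈ s, E i z) (h i (Finset.mem_insert_self _ _)) h1.1
    exact ⟨h2.1, fun R => by rw [h2.2, h1.2]⟩

theorem locfin_abs_del (hcnt : St_cnt) (hord : St_ord) (m : Fin N → ℤ) :
    c.LocFin (fun z => ((|c.del z m| : ℤ) : ℝ)) := by
  refine (hcnt N c).2.2.2 (fun z => (c.del z m : ℤ)) _ ((hord N c).2.2.2.2.2.2.2 m) fun z _ => ?_
  push_cast
  rw [abs_abs]

end Pool.Agent.Y705.OG
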